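import Pool.Agent.U854.CQ.Stm

/-!
# QC-PAIR: isogenous points near to the cusp (helper780; project of helper854)

The valuations of integral elements, roots of unity and values of integral polynomials are treated as
in `Pool/Agent/W282/ZP/LV.lean` (helper282).
-/

set_option autoImplicit false

open Polynomial

namespace Pool.Agent.U780.CQ.Pair

open Pool.Agent.U854.CQ

variable (O : ValuationSubring ℂ)

lemma val_int {c : ℂ} (h : IsIntegral ℤ c) : O.valuation c ≤ 1 := by
  have h2 : IsIntegral O c := h.tower_top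
  obtain ⟨y, hy⟩ := IsIntegrallyClosed.isIntegral_iff.1 h2
  rw [← hy]
  exact (O.valuation_le_one_iff _).2 y.2

lemma val_root {c : ℂ} {m : ℕ} (hm : 0 < m) (h : c ^ m = 1) : O.valuation c = 1 := by
  have h1 : O.valuation c ^ m = 1 := by rw [← map_pow, h, map_one]
  rcases lt_trichotomy (O.valuation c) 1 with h2 | h2 | h2
  · exact absurd h1 (pow_lt_one₀ zero_le h2 hm.ne').ne
  · exact h2
  · exact absurd h1 (one_lt_pow₀ h2 hm.ne').ne'

lemma val_eval {P : ℂ[X]} (hP : ∀ k, IsIntegral ℤ (P.coeff k)) {z : ℂ}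
    (hz : O.valuation z ≤ 1) : O.valuation (P.eval z) ≤ 1 := by
  rw [eval_eq_sum_range]
  refine O.valuation.map_sum_le fun k _ => ?_
  rw [map_mul, map_pow]
  exact mul_le_one' (val_int O (hP k)) (pow_le_one' hz k)

lemma tr_sub {c : ℕ → ℂ} (h0 : c 0 = 1) (hc : ∀ n, IsIntegral ℤ (c n)) {L : ℕ} (hL : 1 ≤ L)
    {q : ℂ} (hq : O.valuation q ≤ 1) : O.valuation (tr c L q - 1) ≤ O.valuation q := by
  obtain ⟨M, rfl⟩ := Nat.exists_eq_add_of_le' hL
  have h1 : tr c (M + 1) q - 1 = ∑ n ∈ Finset.range M, c (n + 1) * q ^ (n + 1) := by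
    unfold tr
    rw [Finset.sum_range_succ', h0]
    simp
  rw [h1]
  refine O.valuation.map_sum_le fun k _ => ?_
  rw [map_mul, map_pow, pow_succ]
  calc O.valuation (c (k + 1)) * (O.valuation q ^ k * O.valuation q)
      ≤ 1 * (1 * O.valuation q) :=
        mul_le_mul' (val_int O (hc _)) (mul_le_mul' (pow_le_one' hq k) le_rfl)
    _ = O.valuation q := by rw [one_mul, one_mul]

lemma unit_of {z : ℂ} (h : O.valuation (z - 1) < 1) : O.valuation z = 1 := by
  have := O.valuation.map_one_add_of_lt h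
  rwa [add_sub_cancel] at this

lemma pow_sub {A : ℂ} {ρ : O.ValueGroup} (h : O.valuation (A - 1) ≤ ρ)
    (hA : O.valuation A ≤ 1) (n : ℕ) : O.valuation (A ^ n - 1) ≤ ρ := by
  rw [← geom_sum_mul, map_mul]
  have h1 : O.valuation (∑ i ∈ Finset.range n, A ^ i) ≤ 1 := by
    refine O.valuation.map_sum_le fun i _ => ?_
    rw [map_pow]
    exact pow_le_one' hA i
  calc _ ≤ 1 * ρ := mul_le_mul' h1 h
    _ = ρ := one_mul _

lemma tr_zero {c : ℕ → ℂ} (h0 : c 0 = 1) {L : ℕ} (hL : 1 ≤ L) : tr c L 0 = 1 := by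
  obtain ⟨M, rfl⟩ := Nat.exists_eq_add_of_le' hL
  unfold tr
  rw [Finset.sum_range_succ', h0]
  simp

lemma exists_q {c : ℕ → ℂ} (h0 : c 0 = 1) (hc : ∀ n, IsIntegral ℤ (c n)) {L : ℕ} (hL : 2 ≤ L)
    {x : ℂ} (hx : 1 < O.valuation x) : ∃ q : ℂ, O.valuation q < 1 ∧ x * q = tr c L q := by
  set f : ℂ[X] := C x * X - ∑ n ∈ Finset.range L, C (c n) * X ^ n with hf
  have hev : ∀ q, f.eval q = x * q - tr c L q := by
    intro q
    rw [hf, eval_sub, eval_mul, eval_C, eval_X, eval_finsetSum, tr]
    simp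
  have he0 : f.eval 0 = -1 := by
    rw [hev, tr_zero h0 (by omega)]
    ring
  have hco : f.derivative.eval 0 = x - c 1 := by
    rw [← coeff_zero_eq_eval_zero, coeff_derivative, hf, coeff_sub, coeff_C_mul, zero_add,
      coeff_X_one, finsetSum_coeff]
    simp only [coeff_C_mul, coeff_X_pow]
    rw [Finset.sum_eq_single 1]
    · simp
    · intro b _ hb
      rw [if_neg (Ne.symm hb), mul_zero]
    · intro h
      exact absurd (Finset.mem_range.2 (by omega)) h
  by_contra hcon
  push Not at hcon
  have h1 := (IsAlgClosed.splits f).eval_derivative_div_eval_of_ne_zero (x := 0)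
    (by rw [he0]; norm_num)
  have h2 : O.valuation ((f.roots.map fun z => 1 / (0 - z)).sum) ≤ 1 := by
    have key : ∀ s : Multiset ℂ, (∀ z ∈ s, 1 ≤ O.valuation z) →
        O.valuation ((s.map fun z => 1 / (0 - z)).sum) ≤ 1 := by
      intro s
      induction s using Multiset.induction_on with
      | empty => intro _; simp
      | cons a s ih =>
        intro h
        rw [Multiset.map_cons, Multiset.sum_cons]
        refine O.valuation.map_add_le ?_ (ih fun z hz => h z (Multiset.mem_cons_of_mem hz))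
        rw [zero_sub, map_div₀, map_one, Valuation.map_neg, one_div]
        exact inv_le_one_of_one_le₀ (h a (Multiset.mem_cons_self a s))
    refine key _ fun z hz => ?_
    by_contra hlt
    rw [not_le] at hlt
    have hr : f.eval z = 0 := by
      have := (mem_roots'.1 hz).2
      exact this
    rw [hev] at hr
    exact hcon z hlt (sub_eq_zero.1 hr)
  rw [← h1, hco, he0, map_div₀, Valuation.map_neg, map_one, div_one] at h2
  have h3 : O.valuation x ≤ 1 := by
    have := O.valuation.map_add_le h2 (val_int O (hc 1))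
    rwa [sub_add_cancel] at this
  exact absurd hx (not_lt.2 h3)

theorem pair : S_PAIR := by
  intro c N ι _ _ α δ ξ P g hD O x x' hx ⟨a, ha⟩ hrel
  obtain ⟨h0, hc, hN, hpos, hroot, hdeg, hP0, happ⟩ := hD
  set D := Fintype.card ι with hDdef
  have hxpos : 0 < O.valuation x := zero_lt_one.trans hx
  have hx0 : x ≠ 0 := by
    rintro rfl
    rw [map_zero] at hxpos
    exact lt_irrefl _ hxpos
  have hD0 : 0 < D := by
    rcases Nat.eq_zero_or_pos D with h | h
    · rw [h] at hrel
      simp [hP0] at hrel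
    · exact h
  -- `1 ≤ |x'| ≤ |x| ^ (a ^ 2)`
  have hx'1 : 1 ≤ O.valuation x' := by
    by_contra hlt
    rw [not_le] at hlt
    have := pow_lt_one₀ zero_le hlt hN.ne'
    rw [ha] at this
    exact absurd (one_le_pow₀ hx.le) (not_le.2 this)
  have hx'2 : O.valuation x' ≤ O.valuation x ^ (a ^ 2) := by
    rw [← ha]
    exact le_self_pow₀ hx'1 hN.ne'
  -- the point `q`
  set L := N * g + N * (a ^ 2 * D) + N * D + 2 with hLdef
  obtain ⟨q, hq1, hqx⟩ := exists_q O h0 hc (L := L) (by omega) hx
  have hq0 : q ≠ 0 := by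
    rintro rfl
    rw [mul_zero, tr_zero h0 (by omega)] at hqx
    exact zero_ne_one hqx
  have htr : ∀ z : ℂ, O.valuation z < 1 → O.valuation (tr c L z - 1) ≤ O.valuation z :=
    fun z hz => tr_sub O h0 hc (by omega) hz.le
  have hB : O.valuation (x * q - 1) ≤ O.valuation q := by
    rw [hqx]
    exact htr q hq1
  have hB1 : O.valuation (x * q) = 1 := unit_of O (hB.trans_lt hq1)
  have hqinv : O.valuation q = (O.valuation x)⁻¹ := by
    rw [map_mul] at hB1
    exact eq_inv_of_mul_eq_one_right hB1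
  obtain ⟨s, hs⟩ := IsAlgClosed.exists_pow_nat_eq q hN
  have hs0 : s ≠ 0 := by
    rintro rfl
    rw [zero_pow hN.ne'] at hs
    exact hq0 hs.symm
  have hsv0 : 0 < O.valuation s := by
    rw [zero_lt_iff]
    exact (Valuation.ne_zero_iff _).2 hs0
  have hqv0 : 0 < O.valuation q := by
    rw [zero_lt_iff]
    exact (Valuation.ne_zero_iff _).2 hq0
  have hsq : O.valuation s ^ N = O.valuation q := by rw [← map_pow, hs]
  have hs1 : O.valuation s < 1 := by
    by_contra hge
    rw [not_lt] at hge
    have := one_le_pow₀ hge (n := N)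
    rw [hsq] at this
    exact absurd hq1 (not_lt.2 this)
  -- the points `y k`
  set y : ι → ℂ := fun k => ξ k * s ^ (α k ^ 2) with hy
  have hξ : ∀ k, O.valuation (ξ k) = 1 := fun k => val_root O (hpos k).2.1 (hroot k)
  have hyv : ∀ k, O.valuation (y k) < 1 := by
    intro k
    rw [hy]
    change O.valuation (ξ k * s ^ (α k ^ 2)) < 1
    rw [map_mul, hξ, one_mul, map_pow]
    exact pow_lt_one₀ zero_le hs1 (pow_pos (hpos k).1 2).ne'
  choose! V hV1 hV2 using happ L
  -- the identity
  have hid : q ^ g * ∏ k, (y k * x' - tr c L (y k)) =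
      -(s ^ L * ∑ m ∈ Finset.range (D + 1), (V m).eval s * x' ^ (D - m)) := by
    have e1 : ∀ m ∈ Finset.range (D + 1),
        (∏ k, y k) * (q ^ g * ((P m).eval x * x' ^ (D - m))) -
          q ^ g * ((∑ S ∈ Finset.powersetCard m (Finset.univ : Finset ι),
            (∏ k ∈ S, -tr c L (y k)) * ∏ k ∈ Finset.univ \ S, y k) * x' ^ (D - m)) =
          s ^ L * ((V m).eval s * x' ^ (D - m)) := by
      intro m hm
      have hm' : m ≤ D := Nat.lt_succ_iff.1 (Finset.mem_range.1 hm)
      have e2 := hV2 m hm' s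
      rw [pow_mul, hs] at e2
      have e3 : ∑ j ∈ Finset.range (g + 1), (P m).coeff j * tr c L q ^ j * q ^ (g - j) =
          q ^ g * (P m).eval x := by
        rw [eval_eq_sum_range' (Nat.lt_succ_of_le (hdeg m hm')), Finset.mul_sum]
        refine Finset.sum_congr rfl fun j hj => ?_
        rw [← hqx, mul_pow]
        have : q ^ g = q ^ j * q ^ (g - j) := by
          rw [← pow_add]
          congr 1
          have := Finset.mem_range.1 hj
          omega
        rw [this]
        ring
      rw [e3] at e2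
      linear_combination x' ^ (D - m) * e2
    have e4 : ∏ k, (y k * x' - tr c L (y k)) =
        ∑ m ∈ Finset.range (D + 1), (∑ S ∈ Finset.powersetCard m (Finset.univ : Finset ι),
            (∏ k ∈ S, -tr c L (y k)) * ∏ k ∈ Finset.univ \ S, y k) * x' ^ (D - m) := by
      have e5 : ∏ k, (y k * x' - tr c L (y k)) = ∏ k, (-tr c L (y k) + y k * x') :=
        Finset.prod_congr rfl fun k _ => by ring
      rw [e5, Finset.prod_add, Finset.sum_powerset, Finset.card_univ, ← hDdef]
      refine Finset.sum_congr rfl fun m _ => ?_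
      rw [Finset.sum_mul]
      refine Finset.sum_congr rfl fun S hS => ?_
      rw [Finset.prod_mul_distrib, Finset.prod_const,
        Finset.card_sdiff_of_subset (Finset.subset_univ S), Finset.card_univ,
        (Finset.mem_powersetCard.1 hS).2, ← hDdef, mul_assoc]
    have e6 := Finset.sum_congr rfl e1
    rw [Finset.sum_sub_distrib, ← Finset.mul_sum, ← Finset.mul_sum, hrel, ← Finset.mul_sum, ← e4,
      ← Finset.mul_sum] at e6
    rw [mul_zero, mul_zero, zero_sub] at e6
    rw [← e6, neg_neg]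
  -- valuations
  have hsum : O.valuation (∑ m ∈ Finset.range (D + 1), (V m).eval s * x' ^ (D - m)) ≤
      O.valuation x' ^ D := by
    refine O.valuation.map_sum_le fun m hm => ?_
    have hm' : m ≤ D := Nat.lt_succ_iff.1 (Finset.mem_range.1 hm)
    rw [map_mul, map_pow]
    calc _ ≤ 1 * O.valuation x' ^ (D - m) :=
          mul_le_mul' (val_eval O (hV1 m hm') hs1.le) le_rfl
      _ = O.valuation x' ^ (D - m) := one_mul _
      _ ≤ O.valuation x' ^ D := pow_le_pow_right₀ hx'1 (Nat.sub_le _ _)
  have hprod : ∏ k, O.valuation (y k * x' - tr c L (y k)) ≤ O.valuation q ^ D := by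
    have e1 := congrArg O.valuation hid
    rw [Valuation.map_neg, map_mul, map_mul, map_pow, map_pow, map_prod] at e1
    have e2 : O.valuation q ^ g * ∏ k, O.valuation (y k * x' - tr c L (y k)) ≤
        O.valuation s ^ L * (O.valuation x ^ (a ^ 2)) ^ D := by
      rw [e1]
      exact mul_le_mul' le_rfl (hsum.trans (pow_le_pow_left₀ zero_le hx'2 D))
    have e3 : O.valuation s ^ L ≤ O.valuation q ^ (g + a ^ 2 * D + D) := by
      rw [← hsq, ← pow_mul]
      refine pow_le_pow_of_le_one zero_le hs1.le ?_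
      rw [hLdef]
      have : N * (g + a ^ 2 * D + D) = N * g + N * (a ^ 2 * D) + N * D := by ring
      omega
    have e4 : O.valuation q ^ (g + a ^ 2 * D) * ∏ k, O.valuation (y k * x' - tr c L (y k)) ≤
        O.valuation q ^ (g + a ^ 2 * D) * O.valuation q ^ D := by
      calc O.valuation q ^ (g + a ^ 2 * D) * ∏ k, O.valuation (y k * x' - tr c L (y k))
          = (O.valuation q ^ g * ∏ k, O.valuation (y k * x' - tr c L (y k))) *
            O.valuation q ^ (a ^ 2 * D) := by
            rw [pow_add, mul_right_comm]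
        _ ≤ (O.valuation s ^ L * (O.valuation x ^ (a ^ 2)) ^ D) * O.valuation q ^ (a ^ 2 * D) :=
            mul_le_mul' e2 le_rfl
        _ = O.valuation s ^ L * (O.valuation x * O.valuation q) ^ (a ^ 2 * D) := by
            rw [← pow_mul, mul_pow, mul_assoc]
        _ = O.valuation s ^ L := by
            rw [← map_mul, hB1, one_pow, mul_one]
        _ ≤ _ := by
            rw [← pow_add]
            exact e3
    exact le_of_mul_le_mul_left e4 (pow_pos hqv0 _)
  obtain ⟨k, hk⟩ : ∃ k, O.valuation (y k * x' - tr c L (y k)) ≤ O.valuation q := by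
    by_contra hcon
    push Not at hcon
    have hne : (Finset.univ : Finset ι).Nonempty := by
      rw [← Finset.card_pos, Finset.card_univ]
      exact hD0
    have h1 : ∏ _k : ι, O.valuation q < ∏ k, O.valuation (y k * x' - tr c L (y k)) :=
      Finset.prod_lt_prod_of_nonempty (fun _ _ => hqv0) (fun k _ => hcon k) hne
    rw [Finset.prod_const, Finset.card_univ, ← hDdef] at h1
    exact absurd h1 (not_lt.2 hprod)
  set q2 := y k with hq2
  have hq2v : O.valuation q2 < 1 := hyv k
  set ρ := max (O.valuation q) (O.valuation q2) with hρ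
  have hρ1 : ρ < 1 := max_lt hq1 hq2v
  have hA : O.valuation (q2 * x' - 1) ≤ ρ := by
    have e1 : q2 * x' - 1 = (q2 * x' - tr c L q2) + (tr c L q2 - 1) := by ring
    rw [e1]
    exact O.valuation.map_add_le (hk.trans (le_max_left _ _))
      ((htr q2 hq2v).trans (le_max_right _ _))
  have hA1 : O.valuation (q2 * x') = 1 := unit_of O (hA.trans_lt hρ1)
  have hq2inv : O.valuation q2 = (O.valuation x')⁻¹ := by
    rw [map_mul] at hA1
    exact eq_inv_of_mul_eq_one_left hA1
  have hq20 : q2 ≠ 0 := by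
    intro h
    rw [h, zero_mul, map_zero] at hA1
    exact zero_ne_one hA1
  have hx'0 : x' ≠ 0 := by
    intro h
    rw [h, mul_zero, map_zero] at hA1
    exact zero_ne_one hA1
  have hx'v : 1 < O.valuation x' := by
    by_contra hle
    rw [not_lt] at hle
    rw [map_mul] at hA1
    have : O.valuation q2 * O.valuation x' ≤ O.valuation q2 * 1 := mul_le_mul' le_rfl hle
    rw [hA1, mul_one] at this
    exact absurd hq2v (not_lt.2 this)
  refine ⟨hx'v, ?_⟩
  obtain ⟨hα, hδ, hαδ⟩ := hpos k
  set t := Nat.gcd (α k) (δ k) with ht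
  have ht0 : 0 < t := Nat.gcd_pos_of_pos_left _ hα
  obtain ⟨a', ha'⟩ : t ∣ α k := Nat.gcd_dvd_left _ _
  obtain ⟨d', hd'⟩ : t ∣ δ k := Nat.gcd_dvd_right _ _
  have ha'0 : 0 < a' := by
    rcases Nat.eq_zero_or_pos a' with h | h
    · rw [h, mul_zero] at ha'
      omega
    · exact h
  have hd'0 : 0 < d' := by
    rcases Nat.eq_zero_or_pos d' with h | h
    · rw [h, mul_zero] at hd'
      omega
    · exact h
  have hcop : a'.Coprime d' := by
    have := Nat.coprime_div_gcd_div_gcd (m := α k) (n := δ k) ht0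
    rw [← ht, ha', hd', Nat.mul_div_cancel_left _ ht0, Nat.mul_div_cancel_left _ ht0] at this
    exact this
  have hkey : q2 ^ δ k = q ^ α k := by
    rw [hq2, hy]
    change (ξ k * s ^ (α k ^ 2)) ^ δ k = _
    rw [mul_pow, hroot, one_mul, ← pow_mul, ← hs, ← pow_mul, ← hαδ]
    congr 1
    ring
  refine ⟨a', d', (q2 ^ d' / q ^ a')⁻¹, ha'0, hd'0, hcop, ⟨t, ht0, ?_⟩, ?_⟩
  · rw [inv_pow, div_pow, ← pow_mul, ← pow_mul, mul_comm d', mul_comm a', ← ha', ← hd', hkey,
      div_self (pow_ne_zero _ hq0), inv_one]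
  · have e1 : x' ^ d' / ((q2 ^ d' / q ^ a')⁻¹ * x ^ a') - 1 =
        ((q2 * x') ^ d' - 1 - ((x * q) ^ a' - 1)) / (x * q) ^ a' := by
      field_simp
      ring
    have e2 : max (O.valuation x)⁻¹ (O.valuation x')⁻¹ = ρ := by
      rw [hρ, hqinv, hq2inv]
    rw [e1, e2, map_div₀, map_pow, hB1, one_pow, div_one]
    exact O.valuation.map_sub_le (pow_sub O hA hA1.le d')
      (pow_sub O (hB.trans (le_max_left _ _)) hB1.le a')

end Pool.Agent.U780.CQ.Pair
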